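import Pool.Agent.H10.Sc1
import Pool.Agent.H10.Sc2

namespace Pool.Agent.Results.MP_997916_al.No

open Pool.Agent.H10.Sc Equiv

def G0 : Subgroup (Perm X × Perm X) where
  carrier := {g | ∀ x y, lab (g.1 x) (g.2 y) = lab x y}
  mul_mem' := fun {a b} ha hb x y => by
    simp only [Prod.fst_mul, Prod.snd_mul, Perm.mul_apply]
    rw [ha, hb]
  one_mem' := fun _ _ => rfl
  inv_mem' := fun {a} ha x y => by
    rw [← ha]; simp

def al : G0 →* Perm X := (MonoidHom.fst _ _).comp G0.subtype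
def be : G0 →* Perm X := (MonoidHom.snd _ _).comp G0.subtype

def g0 : G0 := ⟨(p0, q0), inv0⟩
def g1 : G0 := ⟨(p1, q1), inv1⟩
def g2 : G0 := ⟨(p2, q2), inv2⟩

theorem trans_of (f : G0 →* Perm X) (par : X → X)
    (h : ∀ x : X, x = 0 ∨ (par x < x ∧ (f g0 (par x) = x ∨ f g1 (par x) = x ∨ f g2 (par x) = x))) :
    ∀ x, ∃ g, f g 0 = x := by
  intro x
  induction x using WellFoundedLT.induction with
  | ind x ih =>
    rcases h x with rfl | ⟨h1, h2⟩
    · exact ⟨1, by simp⟩
    · obtain ⟨g, hg⟩ := ih _ h1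
      rcases h2 with h2 | h2 | h2
      · exact ⟨g0 * g, by rw [map_mul, Perm.mul_apply, hg, h2]⟩
      · exact ⟨g1 * g, by rw [map_mul, Perm.mul_apply, hg, h2]⟩
      · exact ⟨g2 * g, by rw [map_mul, Perm.mul_apply, hg, h2]⟩

theorem tA : ∀ x, ∃ g, al g 0 = x := trans_of al par1 tr1
theorem tB : ∀ x, ∃ g, be g 0 = x := trans_of be par2 tr2

theorem linv (g : G0) (x y : X) : lab (al g x) (be g y) = lab x y := g.2 x y

theorem al_inj : Function.Injective al := by
  rw [injective_iff_map_eq_one]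
  intro g hg
  have h1 : ∀ k : G0, al k = 1 → be k 0 = 0 := by
    intro k hk
    by_contra h
    have e1 := row2 (be k 0)
    have e2 := row2 0
    rw [if_neg h] at e1
    rw [if_pos rfl] at e2
    have e3 : ∀ x, lab x (be k 0) = lab x 0 := fun x => by
      have := linv k x 0
      rwa [hk, Perm.one_apply] at this
    simp only [e3] at e1
    rw [e1] at e2
    exact zero_ne_one e2
  have h2 : be g = 1 := by
    ext1 y
    obtain ⟨k, rfl⟩ := tB y
    have := h1 (k⁻¹ * g * k) (by simp [hg])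
    rw [map_mul, map_mul, map_inv, Perm.mul_apply, Perm.mul_apply, Perm.inv_eq_iff_eq] at this
    exact this
  exact Subtype.ext (Prod.ext hg h2)

theorem result : ∃ (G : Type) (_ : Group G) (_ : Finite G) (G₁ G₂ : Subgroup G),
    G₁.normalCore = ⊥ ∧ G₂.normalCore = ⊥ ∧
    (∃ e : (G ⧸ G₁ →₀ ℤ) ≃ₗ[ℤ] (G ⧸ G₂ →₀ ℤ), ∀ (g : G) (v : G ⧸ G₁ →₀ ℤ),
      e (Finsupp.mapDomain (fun c => g • c) v) = Finsupp.mapDomain (fun c => g • c) (e v)) ∧
    IsEmpty (G₁ ≃* G₂) := by
  haveI : Finite (W al) := Finite.of_equiv _ SemidirectProduct.equivProd.symm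
  let r : W al →* G0 := SemidirectProduct.rightHom
  refine ⟨Perm (W al ⊕ Unit), inferInstance, inferInstance,
    (St (al.comp r) 0).map (emb (W al)), (St (be.comp r) 0).map (emb (W al)),
    core_bot _, core_bot _, ?_, ⟨fun e => ?_⟩⟩
  · refine equiv_of (emb (W al)) (al.comp r) (be.comp r) 0 0 (fun x => ?_) (fun y => ?_)
      (fun x y => ca (lab x y)) (fun y x => cb (lab x y)) (fun g x y => ?_) (fun g y x => ?_)
      row1 row2
    · obtain ⟨g, hg⟩ := tA x
      exact ⟨SemidirectProduct.inr g, by simpa [r] using hg⟩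
    · obtain ⟨g, hg⟩ := tB y
      exact ⟨SemidirectProduct.inr g, by simpa [r] using hg⟩
    · exact congrArg ca (linv (r g) x y)
    · exact congrArg cb (linv (r g) x y)
  · have e' := ((St (al.comp r) 0).equivMapOfInjective _ emb_inj).trans
      (e.trans ((St (be.comp r) 0).equivMapOfInjective _ emb_inj).symm)
    refine small2 al be 0 al_inj (fun x => ?_) ((small1 al 0).map e')
    rcases nofix x with h | h
    · exact ⟨g0, fix0, h⟩
    · exact ⟨g1, fix1, h⟩

end Pool.Agent.Results.MP_997916_al.No
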